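import Pool.Agent.helper33.CVX.Spec

/-!
# Project cvx, row TWA: linear systems on the projective bundle `P(⊕ O(d j))`
-/

set_option autoImplicit false
set_option linter.unusedVariables false
set_option linter.unusedSectionVars false

namespace Pool.Agent.CVX

open MvPolynomial

section

variable {ι : Type} [Fintype ι] [DecidableEq ι] {n : ι → ℕ} {J : Type} [Fintype J] [DecidableEq J]

/-- weights: the degree in `λ`, and the multidegree in `x` minus `∑ β_j d_j` -/
def TWA_w (n : ι → ℕ) (d : J → ι → ℕ) : Vr n ⊕ J → ℤ × (ι → ℤ)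
  | Sum.inl v => (0, Pi.single v.1 1)
  | Sum.inr j => (1, fun i => -(d j i : ℤ))

theorem TWA_weight (d : J → ι → ℕ) (m : (Vr n ⊕ J) →₀ ℕ) :
    Finsupp.weight (TWA_w n d) m = (∑ j, (m (Sum.inr j) : ℤ),
      fun i => (∑ a : Fin (n i + 1), (m (Sum.inl ⟨i, a⟩) : ℤ)) -
        ∑ j, (m (Sum.inr j) : ℤ) * (d j i : ℤ)) := by
  rw [Finsupp.weight_apply, Finsupp.sum_fintype m (fun i c => c • TWA_w n d i)
    (fun i => zero_smul _ _), Fintype.sum_sum_type, Fintype.sum_sigma]
  refine Prod.ext ?_ ?_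
  · rw [Prod.fst_add, Prod.fst_sum, Prod.fst_sum]
    simp [TWA_w, Prod.fst_sum]
  · rw [Prod.snd_add, Prod.snd_sum, Prod.snd_sum]
    funext i
    rw [Pi.add_apply, Finset.sum_apply, Finset.sum_apply]
    show _ = (∑ a : Fin (n i + 1), (m (Sum.inl ⟨i, a⟩) : ℤ)) -
        ∑ j, (m (Sum.inr j) : ℤ) * (d j i : ℤ)
    rw [sub_eq_add_neg, ← Finset.sum_neg_distrib]
    congr 1
    · rw [Finset.sum_eq_single i]
      · rw [Prod.snd_sum, Finset.sum_apply]
        refine Finset.sum_congr rfl fun a _ => ?_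
        simp [TWA_w]
      · intro i' _ hi'
        rw [Prod.snd_sum, Finset.sum_apply]
        refine Finset.sum_eq_zero fun a _ => ?_
        simp [TWA_w, Pi.single_eq_of_ne (Ne.symm hi')]
      · intro h
        exact absurd (Finset.mem_univ i) h
    · refine Finset.sum_congr rfl fun j _ => ?_
      simp [TWA_w]

theorem TWA_weight_iff (d : J → ι → ℕ) (m : (Vr n ⊕ J) →₀ ℕ) (T : ℕ) :
    Finsupp.weight (TWA_w n d) m = ((T : ℤ), (0 : ι → ℤ)) ↔ ∑ j, m (Sum.inr j) = T ∧
      ∀ i, ∑ a : Fin (n i + 1), m (Sum.inl ⟨i, a⟩) = ∑ j, m (Sum.inr j) * d j i := by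
  rw [TWA_weight, Prod.mk.injEq, funext_iff]
  constructor
  · rintro ⟨h1, h2⟩
    refine ⟨by exact_mod_cast h1, fun i => ?_⟩
    have h3 := h2 i
    rw [Pi.zero_apply, sub_eq_zero] at h3
    exact_mod_cast h3
  · rintro ⟨h1, h2⟩
    refine ⟨by exact_mod_cast h1, fun i => ?_⟩
    rw [Pi.zero_apply, sub_eq_zero]
    exact_mod_cast h2 i

theorem TWA_hom (d : J → ι → ℕ) (c : J → MvPolynomial (Vr n) ℂ)
    (hc : ∀ j, MHom n (d j) (c j)) :
    IsWeightedHomogeneous (TWA_w n d)
      (∑ j, (X (Sum.inr j) * rename Sum.inl (c j) : MvPolynomial (Vr n ⊕ J) ℂ)) ((1 : ℤ), (0 : ι → ℤ)) := by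
  apply IsWeightedHomogeneous.sum
  intro j _
  have h1 : IsWeightedHomogeneous (TWA_w n d)
      (rename Sum.inl (c j) : MvPolynomial (Vr n ⊕ J) ℂ) ((0 : ℤ), fun i => (d j i : ℤ)) := by
    intro m hm
    rw [← mem_support_iff, support_rename_of_injective Sum.inl_injective,
      Finset.mem_image] at hm
    obtain ⟨m', hm', rfl⟩ := hm
    rw [TWA_weight]
    have h2 : ∀ j', (Finsupp.mapDomain (Sum.inl : Vr n → Vr n ⊕ J) m') (Sum.inr j') = 0 := by
      intro j'
      apply Finsupp.mapDomain_of_notMem_range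
      rintro ⟨v, hv⟩
      exact absurd hv (by simp)
    have h3 : ∀ v : Vr n, (Finsupp.mapDomain (Sum.inl : Vr n → Vr n ⊕ J) m') (Sum.inl v) = m' v :=
      fun v => Finsupp.mapDomain_apply Sum.inl_injective m' v
    refine Prod.ext ?_ ?_
    · show ∑ j', (((Finsupp.mapDomain (Sum.inl : Vr n → Vr n ⊕ J) m') (Sum.inr j') : ℕ) : ℤ) = 0
      refine Finset.sum_eq_zero fun j' _ => ?_
      rw [h2, Nat.cast_zero]
    · funext i
      show (∑ a : Fin (n i + 1),
        (((Finsupp.mapDomain (Sum.inl : Vr n → Vr n ⊕ J) m') (Sum.inl ⟨i, a⟩) : ℕ) : ℤ)) -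
        ∑ j', (((Finsupp.mapDomain (Sum.inl : Vr n → Vr n ⊕ J) m') (Sum.inr j') : ℕ) : ℤ) *
          (d j' i : ℤ) = (d j i : ℤ)
      rw [Finset.sum_eq_zero (s := Finset.univ) (f := fun j' =>
        (((Finsupp.mapDomain (Sum.inl : Vr n → Vr n ⊕ J) m') (Sum.inr j') : ℕ) : ℤ) *
          (d j' i : ℤ)) (fun j' _ => by rw [h2, Nat.cast_zero, zero_mul]), sub_zero]
      rw [Finset.sum_congr rfl fun a _ => by rw [h3]]
      have h4 := hc j m' hm' i
      unfold mdeg at h4
      exact_mod_cast h4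
  have h2 := (isWeightedHomogeneous_X ℂ (TWA_w n d) (Sum.inr j)).mul h1
  have h3 : TWA_w n d (Sum.inr j) + ((0 : ℤ), fun i => (d j i : ℤ)) = ((1 : ℤ), (0 : ι → ℤ)) := by
    refine Prod.ext ?_ ?_
    · simp [TWA_w]
    · funext i
      simp [TWA_w]
  rw [h3] at h2
  exact h2

theorem TWA_proj {σ M : Type} [AddCommGroup M] (w : σ → M) (G q : MvPolynomial σ ℂ) (u v : M)
    (hG : IsWeightedHomogeneous w G u) :
    weightedHomogeneousComponent w (u + v) (G * q) = G * weightedHomogeneousComponent w v q := by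
  classical
  ext m
  rw [coeff_weightedHomogeneousComponent, coeff_mul, coeff_mul]
  have key : ∀ x ∈ Finset.HasAntidiagonal.antidiagonal m, coeff x.1 G *
      coeff x.2 (weightedHomogeneousComponent w v q) =
      if Finsupp.weight w m = u + v then coeff x.1 G * coeff x.2 q else 0 := by
    intro x hx
    rw [Finset.HasAntidiagonal.mem_antidiagonal] at hx
    rw [coeff_weightedHomogeneousComponent]
    by_cases h0 : coeff x.1 G = 0
    · rw [h0, zero_mul, zero_mul]
      split_ifs <;> rfl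
    · have h1 := hG h0
      have h2 : Finsupp.weight w m = u + Finsupp.weight w x.2 := by
        rw [← hx, map_add, h1]
      rw [h2]
      by_cases h3 : Finsupp.weight w x.2 = v
      · rw [if_pos h3, if_pos (by rw [h3])]
      · rw [if_neg h3, if_neg (fun h => h3 (add_left_cancel h)), mul_zero]
  rw [Finset.sum_congr rfl key]
  split_ifs
  · rfl
  · rw [Finset.sum_const_zero]

theorem TWA_mem (d : J → ι → ℕ) (T : ℕ) (q : MvPolynomial (Vr n ⊕ J) ℂ) :
    weightedHomogeneousComponent (TWA_w n d) ((T : ℤ), (0 : ι → ℤ)) q ∈ AT n d T := by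
  classical
  rw [weightedHomogeneousComponent_apply]
  apply Submodule.sum_mem
  intro m hm
  rw [Finset.mem_filter] at hm
  have h1 : (monomial m (coeff m q) : MvPolynomial (Vr n ⊕ J) ℂ) = coeff m q • monomial m 1 := by
    rw [smul_monomial, smul_eq_mul, mul_one]
  rw [h1]
  apply Submodule.smul_mem
  apply Submodule.subset_span
  exact ⟨m, rfl, (TWA_weight_iff d m T).1 hm.2⟩

theorem TWA_div (n : ι → ℕ) (m : (Vr n ⊕ J) →₀ ℕ) (M : ℕ) (j : J) (e : ∀ i, Fin (n i + 1))
    (hj : M ≤ m (Sum.inr j)) (he : ∀ i, M ≤ m (Sum.inl ⟨i, e i⟩)) :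
    ∃ r : MvPolynomial (Vr n ⊕ J) ℂ, (monomial m 1 : MvPolynomial (Vr n ⊕ J) ℂ) =
      (X (Sum.inr j) * ∏ i, X (Sum.inl ⟨i, e i⟩)) ^ M * r := by
  set μ : (Vr n ⊕ J) →₀ ℕ := Finsupp.single (Sum.inr j) M +
    ∑ i, Finsupp.single (Sum.inl ⟨i, e i⟩) M with hμ
  have h1 : (X (Sum.inr j) * ∏ i, X (Sum.inl ⟨i, e i⟩) : MvPolynomial (Vr n ⊕ J) ℂ) ^ M =
      monomial μ 1 := by
    rw [mul_pow, ← Finset.prod_pow, X_pow_eq_monomial]
    have h2 : ∀ i, (X (Sum.inl ⟨i, e i⟩) : MvPolynomial (Vr n ⊕ J) ℂ) ^ M =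
        monomial (Finsupp.single (Sum.inl ⟨i, e i⟩) M) 1 := fun i => X_pow_eq_monomial
    rw [Finset.prod_congr rfl fun i _ => h2 i, ← monomial_sum_one, monomial_mul, mul_one]
  have h2 : μ ≤ m := by
    intro v
    rw [hμ, Finsupp.add_apply, Finsupp.finsetSum_apply]
    rcases v with ⟨i, a⟩ | j'
    · rw [Finsupp.single_eq_of_ne (by simp), zero_add]
      rw [Finset.sum_eq_single i]
      · rw [Finsupp.single_apply]
        split_ifs with h
        · rw [← h]
          exact he i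
        · exact Nat.zero_le _
      · intro i' _ hi'
        rw [Finsupp.single_apply, if_neg]
        intro h
        apply hi'
        have h3 := Sum.inl_injective h
        exact congrArg Sigma.fst h3
      · intro h
        exact absurd (Finset.mem_univ i) h
    · rw [Finset.sum_eq_zero, add_zero, Finsupp.single_apply]
      · split_ifs with h
        · rw [← h]
          exact hj
        · exact Nat.zero_le _
      · intro i _
        rw [Finsupp.single_apply, if_neg (by simp)]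
  refine ⟨monomial (m - μ) 1, ?_⟩
  rw [h1, monomial_mul, mul_one, add_tsub_cancel_of_le h2]

end

theorem TWA (hNST : NST_stmt) : TWA_stmt := by
  classical
  intro ι _ _ n J _ _ d hd N c hc hne
  set G : Fin N → MvPolynomial (Vr n ⊕ J) ℂ :=
    fun a => ∑ j, X (Sum.inr j) * rename Sum.inl (c j a) with hG
  set I : Ideal (MvPolynomial (Vr n ⊕ J) ℂ) := Ideal.span (Set.range G) with hI
  have hpow : ∀ x : J × (∀ i, Fin (n i + 1)), ∃ m : ℕ,
      (X (Sum.inr x.1) * ∏ i, X (Sum.inl ⟨i, x.2 i⟩) : MvPolynomial (Vr n ⊕ J) ℂ) ^ m ∈ I := by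
    rintro ⟨j, e⟩
    apply hNST
    intro y hy
    by_contra h0
    rw [map_mul, map_prod] at h0
    simp only [eval_X] at h0
    have h1 := left_ne_zero_of_mul h0
    have h2 := right_ne_zero_of_mul h0
    rw [Finset.prod_ne_zero_iff] at h2
    obtain ⟨a, ha⟩ := hne (fun v => y (Sum.inl v)) (fun i => ⟨e i, h2 i (Finset.mem_univ i)⟩)
      (fun j => y (Sum.inr j)) ⟨j, h1⟩
    apply ha
    have h3 := hy (G a) (Ideal.subset_span ⟨a, rfl⟩)
    rw [hG] at h3
    simp only [map_sum, map_mul, eval_X, eval_rename] at h3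
    exact h3
  choose m hm using hpow
  set M : ℕ := ∑ x, m x with hM
  have hmem : ∀ x : J × (∀ i, Fin (n i + 1)),
      (X (Sum.inr x.1) * ∏ i, X (Sum.inl ⟨i, x.2 i⟩) : MvPolynomial (Vr n ⊕ J) ℂ) ^ M ∈ I := by
    intro x
    have h1 : m x ≤ M := Finset.single_le_sum (fun _ _ => Nat.zero_le _) (Finset.mem_univ x)
    rw [← Nat.sub_add_cancel h1, pow_add]
    exact I.mul_mem_left _ (hm x)
  refine ⟨Fintype.card J * M + ∑ i, (n i + 1) * M, ?_⟩
  intro T hT F hF
  unfold AT at hF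
  induction hF using Submodule.span_induction with
  | mem F hF =>
    obtain ⟨μ, rfl, h1, h2⟩ := hF
    have hj : ∃ j, M ≤ μ (Sum.inr j) := by
      by_contra hcon
      push Not at hcon
      have h3 : ∑ j, μ (Sum.inr j) ≤ ∑ _j : J, M := Finset.sum_le_sum fun j _ => (hcon j).le
      rw [Finset.sum_const, smul_eq_mul, Finset.card_univ] at h3
      omega
    obtain ⟨j, hj⟩ := hj
    have he : ∀ i, ∃ a : Fin (n i + 1), M ≤ μ (Sum.inl ⟨i, a⟩) := by
      intro i
      by_contra hcon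
      push Not at hcon
      have h3 : ∑ a : Fin (n i + 1), μ (Sum.inl ⟨i, a⟩) ≤ ∑ _a : Fin (n i + 1), M :=
        Finset.sum_le_sum fun a _ => (hcon a).le
      rw [Finset.sum_const, smul_eq_mul, Finset.card_univ, Fintype.card_fin] at h3
      have h4 : ∑ j, μ (Sum.inr j) ≤ ∑ j, μ (Sum.inr j) * d j i :=
        Finset.sum_le_sum fun j _ => Nat.le_mul_of_pos_right _ (hd j i)
      have h5 : (n i + 1) * M ≤ ∑ i, (n i + 1) * M :=
        Finset.single_le_sum (f := fun i => (n i + 1) * M) (fun _ _ => Nat.zero_le _)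
          (Finset.mem_univ i)
      have h6 := h2 i
      omega
    choose e he using he
    obtain ⟨r, hr⟩ := TWA_div n μ M j e hj he
    have hin : (monomial μ 1 : MvPolynomial (Vr n ⊕ J) ℂ) ∈ I := by
      rw [hr]
      exact I.mul_mem_right _ (hmem (j, e))
    rw [hI, Ideal.mem_span_range_iff_exists_fun] at hin
    obtain ⟨q, hq⟩ := hin
    refine ⟨fun a => weightedHomogeneousComponent (TWA_w n d) ((T : ℤ), (0 : ι → ℤ)) (q a),
      fun a => TWA_mem d T (q a), ?_⟩
    have h3 : weightedHomogeneousComponent (TWA_w n d) (((T + 1 : ℕ) : ℤ), (0 : ι → ℤ))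
        (monomial μ 1 : MvPolynomial (Vr n ⊕ J) ℂ) = monomial μ 1 := by
      ext μ'
      rw [coeff_weightedHomogeneousComponent, coeff_monomial]
      by_cases h4 : μ = μ'
      · rw [if_pos h4, if_pos]
        rw [← h4]
        exact (TWA_weight_iff d μ (T + 1)).2 ⟨h1, h2⟩
      · rw [if_neg h4]
        split_ifs <;> rfl
    rw [← h3, ← hq, map_sum]
    refine Finset.sum_congr rfl fun a _ => ?_
    have h5 : (((T + 1 : ℕ) : ℤ), (0 : ι → ℤ)) = ((1 : ℤ), (0 : ι → ℤ)) + ((T : ℤ), (0 : ι → ℤ)) := by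
      refine Prod.ext ?_ ?_
      · show ((T + 1 : ℕ) : ℤ) = 1 + (T : ℤ)
        push_cast
        ring
      · show (0 : ι → ℤ) = 0 + 0
        rw [add_zero]
    rw [h5, mul_comm (q a) (G a)]
    exact TWA_proj (TWA_w n d) (G a) (q a) _ _ (TWA_hom d (fun j => c j a) fun j => hc j a)
  | zero =>
    exact ⟨fun _ => 0, fun _ => Submodule.zero_mem _, by simp⟩
  | add x y _ _ hx hy =>
    obtain ⟨p, hp1, hp2⟩ := hx
    obtain ⟨p', hp1', hp2'⟩ := hy
    refine ⟨fun a => p a + p' a, fun a => Submodule.add_mem _ (hp1 a) (hp1' a), ?_⟩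
    rw [hp2, hp2', ← Finset.sum_add_distrib]
    refine Finset.sum_congr rfl fun a _ => ?_
    rw [mul_add]
  | smul t x _ hx =>
    obtain ⟨p, hp1, hp2⟩ := hx
    refine ⟨fun a => t • p a, fun a => Submodule.smul_mem _ _ (hp1 a), ?_⟩
    rw [hp2, Finset.smul_sum]
    refine Finset.sum_congr rfl fun a _ => ?_
    rw [mul_smul_comm]

end Pool.Agent.CVX
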